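import Pool.Agent.R870.AP.Gap2

/-!
# Polynomials with integral coefficients: escape and heights of the iterates
-/

set_option autoImplicit false

namespace Pool.Agent.R870.DY

open NumberField Height

variable {L : Type} [Field L]

/-- the polynomial map with the coefficients `c` -/
def pol {d : ℕ} (c : Fin (d + 1) → ℤ) (x : L) : L := ∑ i, (c i : L) * x ^ (i : ℕ)

theorem arch [NumberField L] {d : ℕ} (c : Fin (d + 1) → ℤ) (H Λ : ℝ) (hΛ : 1 ≤ Λ) (hd : 1 ≤ d)
    (hH : (d + 1) * Λ ≤ H) (hc : ∀ i, (|c i| : ℝ) ≤ H) (hcd : H ≤ |(c (Fin.last d) : ℝ)| * Λ)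
    (v : InfinitePlace L) (x : L) (hx : (d + 1) * Λ < v x) : v x ^ d ≤ v (pol c x) := by
  obtain ⟨X, hX⟩ : ∃ X : ℝ, X = v x := ⟨_, rfl⟩
  rw [← hX] at hx ⊢
  have hd0 : (0 : ℝ) ≤ d := Nat.cast_nonneg _
  have hX1 : 1 ≤ X := by nlinarith
  have hvc : ∀ a : ℤ, v (a : L) = |(a : ℝ)| := by
    intro a
    rw [← InfinitePlace.norm_embedding_eq, map_intCast]
    exact Complex.norm_intCast _
  have h1 : pol c x = ∑ i : Fin d, (c i.castSucc : L) * x ^ (i : ℕ) +
      (c (Fin.last d) : L) * x ^ d := by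
    rw [pol, Fin.sum_univ_castSucc]
    simp
  have h2 : v (∑ i : Fin d, (c i.castSucc : L) * x ^ (i : ℕ)) ≤ d * (H * X ^ (d - 1)) := by
    refine (v.1.sum_le _ _).trans ?_
    calc ∑ i : Fin d, v.1 ((c i.castSucc : L) * x ^ (i : ℕ)) ≤
        ∑ _i : Fin d, H * X ^ (d - 1) := by
          refine Finset.sum_le_sum fun i _ => ?_
          have h3 : v.1 ((c i.castSucc : L) * x ^ (i : ℕ)) = |(c i.castSucc : ℝ)| * X ^ (i : ℕ) := by
            rw [map_mul, map_pow, hX]
            congr 1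
            exact hvc _
          rw [h3]
          refine mul_le_mul (hc _) (pow_le_pow_right₀ hX1 (by have := i.2; omega)) (by positivity)
            ((abs_nonneg _).trans (hc i.castSucc))
      _ = d * (H * X ^ (d - 1)) := by
          rw [Finset.sum_const, Finset.card_univ, Fintype.card_fin, nsmul_eq_mul]
  have h3 : v ((c (Fin.last d) : L) * x ^ d) = |(c (Fin.last d) : ℝ)| * X ^ d := by
    rw [map_mul, map_pow, hvc, hX]
  have h4 : |(c (Fin.last d) : ℝ)| * X ^ d ≤ v (pol c x) + d * (H * X ^ (d - 1)) := by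
    have h5 : (c (Fin.last d) : L) * x ^ d =
        pol c x - ∑ i : Fin d, (c i.castSucc : L) * x ^ (i : ℕ) := by
      rw [h1]
      ring
    rw [← h3, h5]
    exact (v.1.sub_le_add _ _).trans (add_le_add le_rfl h2)
  have h5 : X ^ d = X ^ (d - 1) * X := by
    rw [← pow_succ]
    congr 1
    omega
  have hY : 0 < X ^ (d - 1) := by positivity
  have hH0 : 0 < H := by nlinarith
  have h6 : Λ * X ^ d ≤ Λ * v (pol c x) := by
    have h7 : H * X ^ d ≤ Λ * v (pol c x) + d * (H * X ^ (d - 1)) * Λ := by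
      have h8 : H * X ^ d ≤ |(c (Fin.last d) : ℝ)| * Λ * X ^ d :=
        mul_le_mul_of_nonneg_right hcd (by positivity)
      nlinarith
    have h8 : d * (H * X ^ (d - 1)) * Λ * (d + 1) ≤ d * (H * X ^ d) := by
      rw [h5]
      have h9 : H * X ^ (d - 1) * ((d + 1) * Λ) ≤ H * X ^ (d - 1) * X :=
        mul_le_mul_of_nonneg_left hx.le (by positivity)
      nlinarith
    have h9 : Λ * X ^ d * (d + 1) ≤ H * X ^ d := by
      have := mul_le_mul_of_nonneg_right hH (show (0 : ℝ) ≤ X ^ d by positivity)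
      linarith
    have h10 : H * X ^ d ≤ (Λ * v (pol c x)) * (d + 1) := by nlinarith
    have h11 : (0 : ℝ) < d + 1 := by positivity
    have h12 : Λ * X ^ d * (d + 1) ≤ (Λ * v (pol c x)) * (d + 1) := h9.trans h10
    exact le_of_mul_le_mul_right h12 h11
  exact le_of_mul_le_mul_left h6 (by linarith)

theorem arch_iter [NumberField L] {d : ℕ} (c : Fin (d + 1) → ℤ) (H Λ : ℝ) (hΛ : 1 ≤ Λ)
    (hd : 1 ≤ d) (hH : (d + 1) * Λ ≤ H) (hc : ∀ i, (|c i| : ℝ) ≤ H)
    (hcd : H ≤ |(c (Fin.last d) : ℝ)| * Λ)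
    (v : InfinitePlace L) (x : L) (hx : (d + 1) * Λ < v x) (n : ℕ) :
    v x ^ (d ^ n) ≤ v ((pol c)^[n] x) := by
  have hd0 : (0 : ℝ) ≤ d := Nat.cast_nonneg _
  have hX1 : 1 ≤ v x := by nlinarith
  induction n with
  | zero => simp
  | succ n ih =>
    rw [Function.iterate_succ_apply']
    have h1 : v x ≤ v x ^ (d ^ n) := le_self_pow₀ hX1 (pow_ne_zero _ (by omega))
    have h2 := arch c H Λ hΛ hd hH hc hcd v ((pol c)^[n] x) (hx.trans_le (h1.trans ih))
    refine le_trans ?_ h2
    rw [pow_succ, pow_mul]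
    exact pow_le_pow_left₀ (by positivity) ih d

theorem fin_le [NumberField L] {d : ℕ} (c : Fin (d + 1) → ℤ) (v : FinitePlace L) (x : L) :
    max (v (pol c x)) 1 ≤ max (v x) 1 ^ d := by
  have h1 : 1 ≤ max (v x) 1 := le_max_right _ _
  refine max_le ?_ (one_le_pow₀ h1)
  refine AP.sum_fin2 Finset.univ c (fun i : Fin (d + 1) => x ^ (i : ℕ)) v _ (by positivity) ?_
  intro i _
  rw [map_pow]
  refine (pow_le_pow_left₀ (apply_nonneg v x) (le_max_left (v x) 1) _).trans ?_
  exact pow_le_pow_right₀ h1 (by have := i.2; omega)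

theorem sup_fin [NumberField L] (x : L) :
    (fun v : FinitePlace L => max (v x) 1).HasFiniteMulSupport := by
  by_cases hx : x = 0
  · subst hx
    have h1 : (fun v : FinitePlace L => max (v (0 : L)) 1) = fun _ => 1 := by
      funext v
      rw [map_zero, max_eq_right zero_le_one]
    rw [h1]
    exact Function.hasFiniteMulSupport_one
  · refine Set.Finite.subset (FinitePlace.hasFiniteMulSupport hx) ?_
    intro v hv
    rw [Function.mem_mulSupport] at hv ⊢
    intro h
    apply hv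
    rw [h, max_self]

theorem one_le_fin [NumberField L] (x : L) : 1 ≤ ∏ᶠ v : FinitePlace L, max (v x) 1 := by
  rw [finprod_eq_prod _ (sup_fin x)]
  have h1 : ∏ v ∈ (sup_fin x).toFinset, (1 : ℝ) ≤
      ∏ v ∈ (sup_fin x).toFinset, max (v x) 1 :=
    Finset.prod_le_prod (fun _ _ => zero_le_one) fun v _ => le_max_right _ _
  rwa [Finset.prod_const_one] at h1

theorem one_le_inf [NumberField L] (x : L) :
    1 ≤ ∏ v : InfinitePlace L, (max (v x) 1) ^ v.mult := by
  have h1 : ∏ _v : InfinitePlace L, (1 : ℝ) ≤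
      ∏ v : InfinitePlace L, (max (v x) 1) ^ v.mult :=
    Finset.prod_le_prod (fun _ _ => zero_le_one) fun v _ => one_le_pow₀ (le_max_right _ _)
  rwa [Finset.prod_const_one] at h1

/-- The heights of the iterates. -/
theorem height_iter [NumberField L] {d : ℕ} (c : Fin (d + 1) → ℤ) (H Λ : ℝ) (hΛ : 1 ≤ Λ)
    (hd : 1 ≤ d) (hH : (d + 1) * Λ ≤ H) (hc : ∀ i, (|c i| : ℝ) ≤ H)
    (hcd : H ≤ |(c (Fin.last d) : ℝ)| * Λ) (x : L) (n : ℕ) :
    (d : ℝ) ^ n * (logHeight₁ (pol c x) - d * logHeight₁ x -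
      Module.finrank ℚ L * Real.log ((d + 1) * Λ)) ≤ logHeight₁ ((pol c)^[n + 1] x) := by
  obtain ⟨R, hR⟩ : ∃ R : ℝ, R = (d + 1) * Λ := ⟨_, rfl⟩
  have hd0 : (0 : ℝ) ≤ d := Nat.cast_nonneg _
  have hR1 : 1 ≤ R := by rw [hR]; nlinarith
  have hR0 : 0 < R := by linarith
  rw [← hR]
  obtain ⟨y, hy⟩ : ∃ y, y = pol c x := ⟨_, rfl⟩
  rw [Function.iterate_succ_apply, ← hy]
  have hinf : ∀ v : InfinitePlace L, (max (v y) 1 / R) ^ (d ^ n) ≤
      max (v ((pol c)^[n] y)) 1 := by
    intro v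
    rcases lt_or_ge R (v y) with h | h
    · rw [hR] at h
      have h1 := arch_iter c H Λ hΛ hd hH hc hcd v y h n
      rw [← hR] at h
      refine le_trans ?_ (h1.trans (le_max_left _ _))
      refine pow_le_pow_left₀ (by positivity) ?_ _
      rw [max_eq_left (hR1.trans h.le)]
      exact div_le_self (by linarith) hR1
    · refine le_trans (pow_le_one₀ (by positivity) ?_) (le_max_right _ _)
      rw [div_le_one hR0]
      exact max_le h hR1
  obtain ⟨D, hD⟩ : ∃ D : ℕ, D = Module.finrank ℚ L := ⟨_, rfl⟩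
  rw [← hD]
  obtain ⟨Iy, hIy⟩ : ∃ Iy : ℝ, Iy = ∏ v : InfinitePlace L, (max (v y) 1) ^ v.mult := ⟨_, rfl⟩
  have hIy1 : 1 ≤ Iy := by rw [hIy]; exact one_le_inf y
  have h1 : (Iy / R ^ D) ^ (d ^ n) ≤ mulHeight₁ ((pol c)^[n] y) := by
    rw [NumberField.mulHeight₁_eq]
    refine le_trans ?_ (le_mul_of_one_le_right (by
      exact zero_le_one.trans (one_le_inf _)) (one_le_fin _))
    have h2 : Iy / R ^ D = ∏ v : InfinitePlace L, (max (v y) 1 / R) ^ v.mult := by
      simp only [div_pow]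
      rw [Finset.prod_div_distrib, Finset.prod_pow_eq_pow_sum, InfinitePlace.sum_mult_eq, hIy, hD]
    rw [h2, ← Finset.prod_pow]
    refine Finset.prod_le_prod (fun v _ => by positivity) fun v _ => ?_
    rw [← pow_mul, mul_comm, pow_mul]
    exact pow_le_pow_left₀ (by positivity) (hinf v) _
  have h2 : mulHeight₁ y ≤ Iy * mulHeight₁ x ^ d := by
    rw [NumberField.mulHeight₁_eq, ← hIy]
    refine mul_le_mul_of_nonneg_left ?_ (by linarith)
    have h3 : ∏ᶠ v : FinitePlace L, max (v y) 1 ≤ ∏ᶠ v : FinitePlace L, max (v x) 1 ^ d := by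
      refine finprod_le_finprod (sup_fin y) (fun v => le_max_of_le_right zero_le_one) ?_
        fun v => ?_
      · refine Set.Finite.subset (sup_fin x) fun v hv => ?_
        rw [Function.mem_mulSupport] at hv ⊢
        intro h
        apply hv
        rw [h, one_pow]
      · rw [hy]
        exact fin_le c v x
    refine h3.trans ?_
    rw [← finprod_pow (sup_fin x)]
    refine pow_le_pow_left₀ (zero_le_one.trans (one_le_fin x)) ?_ d
    rw [NumberField.mulHeight₁_eq]
    exact le_mul_of_one_le_left (zero_le_one.trans (one_le_fin x)) (one_le_inf x)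
  have h3 := Real.log_le_log (by positivity) h1
  rw [Real.log_pow, Real.log_div (by positivity) (by positivity), Real.log_pow] at h3
  have h4 := Real.log_le_log (mulHeight₁_pos y) h2
  have hx1 : 0 < mulHeight₁ x := mulHeight₁_pos x
  rw [Real.log_mul (by positivity) (by positivity), Real.log_pow] at h4
  rw [logHeight₁_eq_log_mulHeight₁, logHeight₁_eq_log_mulHeight₁, logHeight₁_eq_log_mulHeight₁]
  refine le_trans ?_ h3
  push_cast
  refine mul_le_mul_of_nonneg_left ?_ (by positivity)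
  linarith

end Pool.Agent.R870.DY
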