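import Pool.Agent.R870.DY.Esc
import Pool.Agent.R870.AP.Rad1
import Pool.Agent.R870.AP.Torus

/-!
# Random polynomials: the orbits of the algebraic numbers of small height
-/

set_option autoImplicit false

namespace Pool.Agent.R870.DY

open NumberField Height
open Pool.Agent.Helper259.AbsHt
open Pool.Agent.R870.AP

section aff

variable {α : Type} [Fintype α] [DecidableEq α]

theorem card_aff (w : α → ℤ) (hw : w ≠ 0) (s : ℤ) (H : ℕ) :
    (((bxx α H).filter fun c => ∑ i, c i * w i = s).card) * (2 * H + 1) ≤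
      (2 * H + 1) ^ Fintype.card α := by
  classical
  obtain ⟨i, hi⟩ := Function.ne_iff.1 hw
  have h1 : (((bxx α H).filter fun c => ∑ i, c i * w i = s).card) ≤
      (bxx {x : α // x ≠ i} H).card := by
    refine Finset.card_le_card_of_injOn (fun c x => c x.1) ?_ ?_
    · intro c hc
      rw [Finset.mem_coe, mem_bxx]
      intro x
      exact mem_bxx.1 (Finset.mem_filter.1 (Finset.mem_coe.1 hc)).1 x.1
    · intro c hc c' hc' h
      have h1 := (Finset.mem_filter.1 (Finset.mem_coe.1 hc)).2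
      have h2 := (Finset.mem_filter.1 (Finset.mem_coe.1 hc')).2
      have h3 : ∀ x, x ≠ i → c x = c' x := fun x hx => congrFun h ⟨x, hx⟩
      rw [← Finset.add_sum_erase _ _ (Finset.mem_univ i)] at h1 h2
      have h4 : ∑ x ∈ Finset.univ.erase i, c x * w x = ∑ x ∈ Finset.univ.erase i, c' x * w x :=
        Finset.sum_congr rfl fun x hx => by rw [h3 x (Finset.ne_of_mem_erase hx)]
      rw [h4] at h1
      have h5 : c i * w i = c' i * w i := by linarith
      have h6 : c i = c' i := mul_right_cancel₀ hi h5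
      funext x
      by_cases hx : x = i
      · rw [hx, h6]
      · exact h3 x hx
  have h2 : Fintype.card {x : α // x ≠ i} + 1 = Fintype.card α := by
    rw [Fintype.card_subtype_compl (fun x => x = i), Fintype.card_subtype_eq]
    have : 0 < Fintype.card α := Fintype.card_pos_iff.2 ⟨i⟩
    omega
  rw [card_bxx] at h1
  calc _ ≤ (2 * H + 1) ^ Fintype.card {x : α // x ≠ i} * (2 * H + 1) := Nat.mul_le_mul_right _ h1
    _ = _ := by rw [← pow_succ, h2]

open Classical in
/-- the vectors with a small integral affine relation -/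
noncomputable def AffE (α : Type) [Fintype α] [DecidableEq α] (H P : ℕ) : Finset (α → ℤ) :=
  ((bxx α P).filter fun w => w ≠ 0).biUnion fun w => (Finset.Icc (-(P : ℤ)) P).biUnion fun s =>
    (bxx α H).filter fun c => ∑ i, c i * w i = s

theorem card_AffE (H P : ℕ) : (AffE α H P).card * (2 * H + 1) ≤
    (2 * P + 1) ^ (Fintype.card α + 1) * (2 * H + 1) ^ Fintype.card α := by
  classical
  have hI : (Finset.Icc (-(P : ℤ)) P).card = 2 * P + 1 := by
    rw [Int.card_Icc]
    omega
  calc (AffE α H P).card * (2 * H + 1) ≤ (∑ w ∈ (bxx α P).filter fun w => w ≠ 0,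
        ∑ s ∈ Finset.Icc (-(P : ℤ)) P,
        ((bxx α H).filter fun c => ∑ i, c i * w i = s).card) * (2 * H + 1) :=
        Nat.mul_le_mul_right _ (Finset.card_biUnion_le.trans
          (Finset.sum_le_sum fun w _ => Finset.card_biUnion_le))
    _ = ∑ w ∈ (bxx α P).filter fun w => w ≠ 0, ∑ s ∈ Finset.Icc (-(P : ℤ)) P,
        ((bxx α H).filter fun c => ∑ i, c i * w i = s).card * (2 * H + 1) := by
        rw [Finset.sum_mul]
        exact Finset.sum_congr rfl fun w _ => Finset.sum_mul _ _ _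
    _ ≤ ∑ _w ∈ (bxx α P).filter fun w => w ≠ 0, ∑ _s ∈ Finset.Icc (-(P : ℤ)) P,
        (2 * H + 1) ^ Fintype.card α :=
        Finset.sum_le_sum fun w hw => Finset.sum_le_sum fun s _ =>
          card_aff w (Finset.mem_filter.1 hw).2 s H
    _ = ((bxx α P).filter fun w => w ≠ 0).card * ((2 * P + 1) *
        (2 * H + 1) ^ Fintype.card α) := by
        rw [Finset.sum_const, Finset.sum_const, hI, smul_eq_mul, smul_eq_mul]
    _ ≤ (2 * P + 1) ^ Fintype.card α * ((2 * P + 1) * (2 * H + 1) ^ Fintype.card α) :=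
        Nat.mul_le_mul_right _ ((Finset.card_filter_le _ _).trans (card_bxx P).le)
    _ = _ := by ring

theorem mem_AffE {H P : ℕ} {c : α → ℤ} (hc : ∀ x, |c x| ≤ H) (y : α → Qbar) (hy : y ≠ 0)
    (β : Qbar) (h : ∑ i, (c i : Qbar) * y i = β) (U : ℝ) (hU : (∑ i, ht (y i)) + ht β ≤ U)
    (hP : ((Fintype.card α + 1 : ℕ) : ℝ) ^ (2 * (Fintype.card α + 1)) *
      Real.exp ((Fintype.card α + 1 : ℕ) * U) ≤ P) : c ∈ AffE α H P := by
  classical
  obtain ⟨Y, hY⟩ : ∃ Y : Option α → Qbar, Y = fun o => o.elim β y := ⟨_, rfl⟩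
  have hY0 : Y ≠ 0 := by
    intro h0
    apply hy
    funext i
    have := congrFun h0 (some i)
    rw [hY] at this
    exact this
  have hYh : absLogHeight Y ≤ U := by
    refine (height_le_sum Y).trans (le_trans ?_ hU)
    rw [Fintype.sum_option, hY]
    simp only [Option.elim]
    linarith
  obtain ⟨w, hw0, hwB, hw⟩ := descend Y hY0
  rw [Fintype.card_option] at hwB
  have hwP : ∀ o, |w o| ≤ P := by
    intro o
    have h1 : (|w o| : ℝ) ≤ P := by
      refine (hwB o).trans (le_trans ?_ hP)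
      refine mul_le_mul_of_nonneg_left (Real.exp_le_exp.2 ?_) (by positivity)
      exact mul_le_mul_of_nonneg_left hYh (by positivity)
    exact_mod_cast h1
  have hrel := hw (fun o => o.elim (-1) c) (by
    rw [Fintype.sum_option, hY]
    simp only [Option.elim]
    rw [h]
    push_cast
    ring)
  rw [Fintype.sum_option] at hrel
  simp only [Option.elim] at hrel
  have hrel' : ∑ i, c i * w (some i) = w none := by linarith
  rw [AffE, Finset.mem_biUnion]
  refine ⟨fun i => w (some i), Finset.mem_filter.2 ⟨mem_bxx.2 fun i => hwP _, fun h0 => ?_⟩, ?_⟩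
  · apply hw0
    funext o
    cases o with
    | none =>
      have h1 : ∀ i, w (some i) = 0 := fun i => congrFun h0 i
      rw [← hrel']
      simp [h1]
    | some i => exact congrFun h0 i
  · rw [Finset.mem_biUnion]
    refine ⟨w none, Finset.mem_Icc.2 (abs_le.1 (hwP none)), Finset.mem_filter.2
      ⟨mem_bxx.2 hc, hrel'⟩⟩

end aff

/-- Random polynomials: the heights of the iterates of all algebraic numbers of small height. -/
theorem main (d : ℕ) (hd : 1 ≤ d) : ∃ C κ : ℕ, ∀ (H Λ : ℕ) (B : ℝ), 1 ≤ Λ → (d + 1) * Λ ≤ H →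
    0 ≤ B → ∃ E : Finset (Fin (d + 1) → ℤ),
      (E.card : ℝ) * (2 * H + 1) ≤
        (C * (Λ : ℝ) ^ κ * Real.exp (κ * B) + 2 * H / Λ) * (2 * H + 1) ^ (d + 1) ∧
      ∀ c : Fin (d + 1) → ℤ, (∀ i, |c i| ≤ H) → c ∉ E →
        ∀ (L : Type) [Field L] [NumberField L] (x : L),
          logHeight₁ x / Module.finrank ℚ L ≤ B → ∀ n : ℕ,
            (d : ℝ) ^ n * B ≤ logHeight₁ ((pol c)^[n + 1] x) / Module.finrank ℚ L := by
  classical
  obtain ⟨K, hK⟩ : ∃ K : ℕ, K = (d + 2) ^ (2 * (d + 2)) * (d + 1) ^ (d + 2) := ⟨_, rfl⟩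
  have hK1 : 1 ≤ K := by
    rw [hK]
    exact Nat.one_le_iff_ne_zero.2 (by positivity)
  obtain ⟨κ, hκ⟩ : ∃ κ : ℕ, κ = (d + 2) * (d + 2) * ((d + 1) * (d + 1)) := ⟨_, rfl⟩
  refine ⟨(5 * K) ^ (d + 2) + 1, κ, fun H Λ B hΛ hH hB => ?_⟩
  have hΛ1 : (1 : ℝ) ≤ Λ := by exact_mod_cast hΛ
  have hd0 : (0 : ℝ) ≤ d := Nat.cast_nonneg _
  obtain ⟨U, hU⟩ : ∃ U : ℝ, U = (d + 1) * (d + 1) * B + Real.log ((d + 1) * Λ) := ⟨_, rfl⟩
  obtain ⟨X, hX⟩ : ∃ X : ℝ, X = ((d + 1 + 1 : ℕ) : ℝ) ^ (2 * (d + 1 + 1)) *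
    Real.exp ((d + 1 + 1 : ℕ) * U) := ⟨_, rfl⟩
  have hX' : X = K * (Λ : ℝ) ^ (d + 2) * Real.exp ((d + 2) * ((d + 1) * (d + 1)) * B) := by
    have h0 : (0 : ℝ) < (d + 1) * Λ := by positivity
    have h1 : ((d + 1 + 1 : ℕ) : ℝ) * U = (d + 2) * ((d + 1) * (d + 1)) * B +
        (d + 2 : ℕ) * Real.log ((d + 1) * Λ) := by
      rw [hU]
      push_cast
      ring
    rw [hX, h1, Real.exp_add, Real.exp_nat_mul, Real.exp_log h0, hK]
    push_cast
    rw [mul_pow]
    ring
  have hX1 : 1 ≤ X := by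
    rw [hX']
    have h1 : (1 : ℝ) ≤ K := by exact_mod_cast hK1
    have h2 : (1 : ℝ) ≤ (Λ : ℝ) ^ (d + 2) := one_le_pow₀ hΛ1
    have h3 : 1 ≤ Real.exp ((d + 2) * ((d + 1) * (d + 1)) * B) :=
      Real.one_le_exp (by positivity)
    exact one_le_mul_of_one_le_of_one_le (one_le_mul_of_one_le_of_one_le h1 h2) h3
  obtain ⟨P, hP⟩ : ∃ P : ℕ, P = ⌈X⌉₊ := ⟨_, rfl⟩
  have hPX : X ≤ P := by rw [hP]; exact Nat.le_ceil _
  have hP5 : 2 * (P : ℝ) + 1 ≤ 5 * X := by
    have h1 : (P : ℝ) < X + 1 := by rw [hP]; exact Nat.ceil_lt_add_one (by linarith)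
    linarith
  let E1 : Finset (Fin (d + 1) → ℤ) := (Finset.Icc (-((H / Λ : ℕ) : ℤ)) (H / Λ : ℕ)).biUnion
    fun s => (bxx (Fin (d + 1)) H).filter fun c =>
      ∑ i, c i * (Pi.single (Fin.last d) 1 : Fin (d + 1) → ℤ) i = s
  have hsingle : (Pi.single (Fin.last d) 1 : Fin (d + 1) → ℤ) ≠ 0 := by
    intro h
    have := congrFun h (Fin.last d)
    simp at this
  have hE1 : E1.card * (2 * H + 1) ≤ (2 * (H / Λ) + 1) * (2 * H + 1) ^ (d + 1) := by
    calc E1.card * (2 * H + 1) ≤ (∑ s ∈ Finset.Icc (-((H / Λ : ℕ) : ℤ)) (H / Λ : ℕ),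
          ((bxx (Fin (d + 1)) H).filter fun c =>
            ∑ i, c i * (Pi.single (Fin.last d) 1 : Fin (d + 1) → ℤ) i = s).card) *
              (2 * H + 1) := Nat.mul_le_mul_right _ Finset.card_biUnion_le
      _ ≤ ∑ _s ∈ Finset.Icc (-((H / Λ : ℕ) : ℤ)) (H / Λ : ℕ), (2 * H + 1) ^ (d + 1) := by
          rw [Finset.sum_mul]
          refine Finset.sum_le_sum fun s _ => ?_
          have h1 := card_aff (Pi.single (Fin.last d) 1 : Fin (d + 1) → ℤ) hsingle s H
          rw [Fintype.card_fin] at h1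
          exact h1
      _ = _ := by
          rw [Finset.sum_const, Int.card_Icc, smul_eq_mul]
          congr 1
          omega
  refine ⟨AffE (Fin (d + 1)) H P ∪ E1, ?_, ?_⟩
  · have h1 : ((AffE (Fin (d + 1)) H P ∪ E1).card : ℝ) ≤
        (AffE (Fin (d + 1)) H P).card + E1.card := by exact_mod_cast Finset.card_union_le _ _
    have h2 : ((AffE (Fin (d + 1)) H P).card : ℝ) * (2 * H + 1) ≤
        (2 * P + 1) ^ (d + 1 + 1) * (2 * H + 1) ^ (d + 1) := by
      have := card_AffE (α := Fin (d + 1)) H P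
      rw [Fintype.card_fin] at this
      exact_mod_cast this
    have h3 : (E1.card : ℝ) * (2 * H + 1) ≤
        (2 * ((H / Λ : ℕ) : ℝ) + 1) * (2 * H + 1) ^ (d + 1) := by exact_mod_cast hE1
    have h4 : ((H / Λ : ℕ) : ℝ) ≤ (H : ℝ) / Λ := Nat.cast_div_le
    have h5 : (2 * (P : ℝ) + 1) ^ (d + 1 + 1) ≤
        (5 * K : ℝ) ^ (d + 2) * ((Λ : ℝ) ^ κ * Real.exp (κ * B)) := by
      refine (pow_le_pow_left₀ (by positivity) hP5 _).trans ?_
      rw [hX']
      have h6 : (5 * (K * (Λ : ℝ) ^ (d + 2) *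
          Real.exp ((d + 2) * ((d + 1) * (d + 1)) * B))) ^ (d + 1 + 1) =
          (5 * K : ℝ) ^ (d + 2) * ((Λ : ℝ) ^ ((d + 2) * (d + 2)) * Real.exp (κ * B)) := by
        have h7 : Real.exp (κ * B) =
            Real.exp ((d + 2) * ((d + 1) * (d + 1)) * B) ^ (d + 2) := by
          rw [← Real.exp_nat_mul, hκ]
          congr 1
          push_cast
          ring
        rw [h7, pow_mul (Λ : ℝ), ← mul_pow, ← mul_pow]
        congr 1
        ring
      rw [h6]
      refine mul_le_mul_of_nonneg_left (mul_le_mul_of_nonneg_right ?_ (Real.exp_pos _).le)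
        (by positivity)
      refine pow_le_pow_right₀ hΛ1 ?_
      rw [hκ]
      exact Nat.le_mul_of_pos_right _ (by positivity)
    have h6 : 1 ≤ (Λ : ℝ) ^ κ * Real.exp (κ * B) :=
      one_le_mul_of_one_le_of_one_le (one_le_pow₀ hΛ1) (Real.one_le_exp (by positivity))
    have h7 : (0 : ℝ) ≤ (2 * (H : ℝ) + 1) ^ (d + 1) := by positivity
    calc ((AffE (Fin (d + 1)) H P ∪ E1).card : ℝ) * (2 * H + 1) ≤
        ((AffE (Fin (d + 1)) H P).card + E1.card) * (2 * H + 1) :=
          mul_le_mul_of_nonneg_right h1 (by positivity)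
      _ = (AffE (Fin (d + 1)) H P).card * (2 * H + 1) + E1.card * (2 * H + 1) := by ring
      _ ≤ (2 * P + 1) ^ (d + 1 + 1) * (2 * H + 1) ^ (d + 1) +
          (2 * ((H / Λ : ℕ) : ℝ) + 1) * (2 * H + 1) ^ (d + 1) := add_le_add h2 h3
      _ = ((2 * P + 1) ^ (d + 1 + 1) + (2 * ((H / Λ : ℕ) : ℝ) + 1)) * (2 * H + 1) ^ (d + 1) := by
          ring
      _ ≤ _ := by
          refine mul_le_mul_of_nonneg_right ?_ h7
          push_cast
          have h8 : 2 * (H : ℝ) / Λ = 2 * (H / Λ) := by ring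
          rw [h8]
          have h9 : ((5 * (K : ℝ)) ^ (d + 2) + 1) * (Λ : ℝ) ^ κ * Real.exp (κ * B) =
              (5 * (K : ℝ)) ^ (d + 2) * ((Λ : ℝ) ^ κ * Real.exp (κ * B)) +
                (Λ : ℝ) ^ κ * Real.exp (κ * B) := by ring
          rw [h9]
          linarith
  · intro c hc hcE L _ _ x hx n
    have hcA : c ∉ AffE (Fin (d + 1)) H P := fun h => hcE (Finset.mem_union_left _ h)
    have hc1 : c ∉ E1 := fun h => hcE (Finset.mem_union_right _ h)
    have hcd : (H : ℝ) ≤ |(c (Fin.last d) : ℝ)| * Λ := by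
      by_contra hlt
      push Not at hlt
      apply hc1
      rw [Finset.mem_biUnion]
      refine ⟨c (Fin.last d), ?_, Finset.mem_filter.2 ⟨mem_bxx.2 hc, ?_⟩⟩
      · rw [Finset.mem_Icc, ← abs_le]
        have h1 : |c (Fin.last d)| * (Λ : ℤ) < H := by exact_mod_cast hlt
        have h2 : (|c (Fin.last d)|).toNat * Λ < H := by
          have h3 : ((|c (Fin.last d)|).toNat : ℤ) = |c (Fin.last d)| :=
            Int.toNat_of_nonneg (abs_nonneg _)
          have h4 : (((|c (Fin.last d)|).toNat * Λ : ℕ) : ℤ) < (H : ℤ) := by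
            push_cast
            rw [← h3] at h1
            simpa using h1
          exact_mod_cast h4
        have h3 : (|c (Fin.last d)|).toNat ≤ H / Λ := by
          rw [Nat.le_div_iff_mul_le (by omega)]
          exact h2.le
        have h4 := Int.toNat_of_nonneg (abs_nonneg (c (Fin.last d)))
        rw [← h4]
        exact_mod_cast h3
      · rw [Finset.sum_eq_single (Fin.last d)]
        · simp
        · intro i _ hi
          rw [Pi.single_eq_of_ne hi, mul_zero]
        · intro h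
          exact absurd (Finset.mem_univ _) h
    have hD0 : (0 : ℝ) < Module.finrank ℚ L := by exact_mod_cast Module.finrank_pos
    obtain ⟨φ⟩ := exists_emb L
    have hxφ : ht (φ x) ≤ B := by rw [ht_eq]; exact hx
    have hpol : φ (pol c x) = ∑ i, (c i : Qbar) * φ x ^ (i : ℕ) := by
      rw [pol, map_sum]
      exact Finset.sum_congr rfl fun i _ => by rw [map_mul, map_intCast, map_pow]
    have hbig : B + d * B + Real.log ((d + 1) * Λ) < ht (φ (pol c x)) := by
      by_contra hle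
      push Not at hle
      apply hcA
      refine mem_AffE hc (fun i : Fin (d + 1) => φ x ^ (i : ℕ)) ?_ (φ (pol c x)) hpol.symm U ?_ ?_
      · intro h
        have := congrFun h 0
        simp at this
      · have h1 : ∑ i : Fin (d + 1), ht (φ x ^ (i : ℕ)) ≤ (d + 1) * (d * B) := by
          calc ∑ i : Fin (d + 1), ht (φ x ^ (i : ℕ)) ≤ ∑ _i : Fin (d + 1), (d * B : ℝ) := by
                refine Finset.sum_le_sum fun i _ => ?_
                rw [ht_pow]
                refine mul_le_mul ?_ hxφ (ht_nonneg _) hd0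
                exact_mod_cast (by have := i.2; omega : (i : ℕ) ≤ d)
            _ = (d + 1) * (d * B) := by
                rw [Finset.sum_const, Finset.card_univ, Fintype.card_fin, nsmul_eq_mul]
                push_cast
                ring
        rw [hU]
        linarith
      · rw [Fintype.card_fin, ← hX]
        exact hPX
    rw [ht_eq] at hbig
    have h1 := height_iter c H Λ hΛ1 hd (by exact_mod_cast hH) (fun i => by exact_mod_cast hc i)
      hcd x n
    rw [le_div_iff₀ hD0]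
    refine le_trans ?_ h1
    rw [mul_assoc]
    refine mul_le_mul_of_nonneg_left ?_ (by positivity)
    rw [lt_div_iff₀ hD0] at hbig
    rw [div_le_iff₀ hD0] at hx
    nlinarith

end Pool.Agent.R870.DY
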